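import Pool.Agent.Lib.Tower66.Step

open NumberField Polynomial

namespace Tower66

theorem isSquare_padic (p : ℕ) [hp : Fact p.Prime] (h2 : p ≠ 2) (m : ℕ) (hm : ¬ p ∣ m)
    (h : IsSquare (m : ZMod p)) : IsSquare (m : ℚ_[p]) := by
  obtain ⟨r, hr⟩ := h
  have hr0 : r ≠ 0 := by
    rintro rfl
    apply hm
    rw [← ZMod.natCast_eq_zero_iff, hr, mul_zero]
  let F : ℤ[X] := X ^ 2 - C (m : ℤ)
  have e1 : F.aeval ((r.val : ℤ) : ℤ_[p]) = (((r.val : ℤ) ^ 2 - m : ℤ) : ℤ_[p]) := by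
    simp [F]
  have e2 : F.derivative.aeval ((r.val : ℤ) : ℤ_[p]) = ((2 * (r.val : ℤ) : ℤ) : ℤ_[p]) := by
    simp only [F, derivative_sub, derivative_X_pow, derivative_C]
    simp [map_ofNat]
  have n1 : ‖F.aeval ((r.val : ℤ) : ℤ_[p])‖ < 1 := by
    rw [e1, PadicInt.norm_int_lt_one_iff_dvd, ← ZMod.intCast_zmod_eq_zero_iff_dvd]
    push_cast
    rw [ZMod.natCast_zmod_val, hr]; ring
  have n2 : ‖F.derivative.aeval ((r.val : ℤ) : ℤ_[p])‖ = 1 := by
    rw [e2]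
    refine le_antisymm (PadicInt.norm_le_one _) (not_lt.mp ?_)
    rw [PadicInt.norm_int_lt_one_iff_dvd, ← ZMod.intCast_zmod_eq_zero_iff_dvd]
    push_cast
    rw [ZMod.natCast_zmod_val]
    refine mul_ne_zero ?_ hr0
    intro h0
    have : ((2 : ℕ) : ZMod p) = 0 := by exact_mod_cast h0
    rw [ZMod.natCast_eq_zero_iff] at this
    exact h2 ((Nat.prime_dvd_prime_iff_eq hp.out Nat.prime_two).mp this)
  obtain ⟨z, hz, -⟩ := hensels_lemma (F := F) (a := ((r.val : ℤ) : ℤ_[p])) (by rw [n2]; simpa using n1)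
  refine ⟨(z : ℚ_[p]), ?_⟩
  have : z ^ 2 = (m : ℤ_[p]) := by
    have h3 : F.aeval z = z ^ 2 - (m : ℤ_[p]) := by simp [F]
    rw [h3, sub_eq_zero] at hz
    exact hz
  have h4 := congrArg (fun t : ℤ_[p] => (t : ℚ_[p])) this
  simp only [PadicInt.coe_pow, PadicInt.coe_natCast] at h4
  rw [← h4]; ring

theorem not_isSquare_prod (T : Finset ℕ) (hT : T.Nonempty) (hp : ∀ q ∈ T, q.Prime) :
    ¬ IsSquare (∏ q ∈ T, q) := by
  obtain ⟨q, hq⟩ := hT
  rintro ⟨r, hr⟩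
  have hsq : Squarefree (∏ q ∈ T, q) := by
    refine Finset.squarefree_prod_of_pairwise_isCoprime ?_ fun i hi => (hp i hi).squarefree
    intro i hi j hj hij
    exact Nat.coprime_iff_isRelPrime.mp ((Nat.coprime_primes (hp i hi) (hp j hj)).mpr hij)
  have hu : IsUnit r := hsq r (by rw [hr])
  rw [Nat.isUnit_iff] at hu
  have : q ∣ 1 := by
    have h := Finset.dvd_prod_of_mem (fun q : ℕ => q) hq
    rwa [hr, hu] at h
  exact (hp q hq).one_lt.ne' (Nat.dvd_one.mp this)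

theorem not_isSquare_prod_rat (T : Finset ℕ) (hT : T.Nonempty) (hp : ∀ q ∈ T, q.Prime) :
    ¬ IsSquare ((∏ q ∈ T, q : ℕ) : ℚ) := by
  rw [Rat.isSquare_natCast_iff]
  exact not_isSquare_prod T hT hp

theorem prod_symmDiff (I J : Finset ℕ) :
    (∏ q ∈ I, q) * ∏ q ∈ J, q = (∏ q ∈ symmDiff I J, q) * (∏ q ∈ I ∩ J, q) ^ 2 := by
  have h1 : ∏ q ∈ I, q = (∏ q ∈ I \ J, q) * ∏ q ∈ I ∩ J, q := by
    rw [← Finset.prod_union (Finset.disjoint_sdiff_inter I J), Finset.sdiff_union_inter]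
  have h2 : ∏ q ∈ J, q = (∏ q ∈ J \ I, q) * ∏ q ∈ I ∩ J, q := by
    rw [Finset.inter_comm, ← Finset.prod_union (Finset.disjoint_sdiff_inter J I),
      Finset.sdiff_union_inter]
  have h3 : ∏ q ∈ symmDiff I J, q = (∏ q ∈ I \ J, q) * ∏ q ∈ J \ I, q := by
    rw [symmDiff_def, Finset.sup_eq_union, Finset.prod_union disjoint_sdiff_sdiff]
  rw [h1, h2, h3]; ring

/-- Kummer classes give distinct quadratic characters. -/
theorem card_le_chars (K L : Type) [Field K] [NumberField K] [Field L] [NumberField L]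
    [Algebra K L] [IsGalois K L] (U : Finset K)
    (h1 : ∀ u ∈ U, ∀ v ∈ U, u ≠ v → ¬ IsSquare (u * v))
    (h2 : ∀ u ∈ U, IsSquare (algebraMap K L u)) :
    U.card ≤ Nat.card ((L ≃ₐ[K] L) →* Multiplicative (ZMod 2)) := by
  classical
  choose! y hy using h2
  have hpm : ∀ u ∈ U, ∀ g : L ≃ₐ[K] L, g (y u) = y u ∨ g (y u) = - y u := by
    intro u hu g
    have h := congrArg g (hy u hu)
    rw [AlgEquiv.commutes, map_mul, hy u hu] at h
    exact mul_self_eq_mul_self_iff.mp h.symm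
  have hne : ∀ z : L, z ≠ 0 → ¬ (-z = z) := by
    intro z hz h
    apply hz
    linear_combination (-1 / 2 : L) * h
  let χ : U → ((L ≃ₐ[K] L) →* Multiplicative (ZMod 2)) := fun u =>
    MonoidHom.mk' (fun g => Multiplicative.ofAdd (if g (y u) = y u then 0 else 1)) (by
      intro g h
      rw [← ofAdd_add]
      congr 1
      by_cases h0 : y u = 0
      · simp [h0]
      have := hne _ h0
      rcases hpm u u.2 g with a | a <;> rcases hpm u u.2 h with b | b <;>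
        simp [AlgEquiv.mul_apply, a, b, this]
      decide)
  have : Finite ((L ≃ₐ[K] L) →* Multiplicative (ZMod 2)) :=
    Finite.of_injective (fun χ : (L ≃ₐ[K] L) →* Multiplicative (ZMod 2) =>
      (χ : (L ≃ₐ[K] L) → Multiplicative (ZMod 2))) DFunLike.coe_injective
  rw [← Fintype.card_coe, ← Nat.card_eq_fintype_card]
  refine Nat.card_le_card_of_injective χ ?_
  intro u v huv
  by_contra hn
  apply h1 u u.2 v v.2 (fun h => hn (Subtype.ext h))
  have hfix : y u * y v ∈ (⊥ : IntermediateField K L) := by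
    rw [IsGalois.mem_bot_iff_fixed]
    intro g
    have h : (if g (y u) = y u then (0 : ZMod 2) else 1) = if g (y v) = y v then 0 else 1 :=
      Multiplicative.ofAdd.injective (DFunLike.congr_fun huv g)
    rw [map_mul]
    by_cases a : g (y u) = y u <;> by_cases b : g (y v) = y v
    · rw [a, b]
    · simp [a, b] at h
    · simp [a, b] at h
    · rw [(hpm u u.2 g).resolve_left a, (hpm v v.2 g).resolve_left b]; ring
  obtain ⟨k, hk⟩ := IntermediateField.mem_bot.mp hfix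
  refine ⟨k, (algebraMap K L).injective ?_⟩
  rw [map_mul, map_mul, hk, hy u u.2, hy v v.2]; ring

/-- Many subsets whose product is a square modulo two given primes. -/
theorem exists_family (p l : ℕ) [Fact p.Prime] [Fact l.Prime] (S : Finset ℕ) (d : ℕ)
    (hd : d + 2 ≤ S.card) (hp : ∀ q ∈ S, (q : ZMod p) ≠ 0) (hl : ∀ q ∈ S, (q : ZMod l) ≠ 0) :
    ∃ F : Finset (Finset ℕ), 2 ^ d ≤ F.card ∧ ∀ I ∈ F, I ⊆ S ∧
      IsSquare ((∏ q ∈ I, q : ℕ) : ZMod p) ∧ IsSquare ((∏ q ∈ I, q : ℕ) : ZMod l) := by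
  classical
  have key : ∀ (r : ℕ) [Fact r.Prime], (∀ q ∈ S, (q : ZMod r) ≠ 0) → ∀ I ⊆ S, ∀ J ⊆ S,
      (IsSquare ((∏ q ∈ I, q : ℕ) : ZMod r) ↔ IsSquare ((∏ q ∈ J, q : ℕ) : ZMod r)) →
      IsSquare ((∏ q ∈ symmDiff I J, q : ℕ) : ZMod r) := by
    intro r _ hr I hI J hJ h
    have nz : ∀ T ⊆ S, ((∏ q ∈ T, q : ℕ) : ZMod r) ≠ 0 := by
      intro T hT
      rw [Nat.cast_prod]
      exact Finset.prod_ne_zero_iff.mpr fun q hq => hr q (hT hq)
    have hsub : symmDiff I J ⊆ S := by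
      intro q hq
      rcases Finset.mem_symmDiff.mp hq with h | h
      · exact hI h.1
      · exact hJ h.1
    have e := congrArg (fun n : ℕ => quadraticChar (ZMod r) (n : ZMod r)) (prod_symmDiff I J)
    simp only [Nat.cast_mul, Nat.cast_pow, map_mul] at e
    rw [quadraticChar_sq_one' (nz _ (Finset.inter_subset_left.trans hI)), mul_one] at e
    rw [← quadraticChar_one_iff_isSquare (nz _ hsub), ← e]
    rw [← quadraticChar_one_iff_isSquare (nz _ hI), ← quadraticChar_one_iff_isSquare (nz _ hJ)] at h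
    rcases quadraticChar_dichotomy (nz _ hI) with a | a <;>
      rcases quadraticChar_dichotomy (nz _ hJ) with b | b <;> rw [a, b] at h ⊢ <;> simp at h ⊢
  let f : Finset ℕ → Bool × Bool := fun I =>
    (decide (IsSquare ((∏ q ∈ I, q : ℕ) : ZMod p)), decide (IsSquare ((∏ q ∈ I, q : ℕ) : ZMod l)))
  obtain ⟨y, -, hy⟩ := Finset.exists_le_card_fiber_of_mul_le_card_of_maps_to
    (s := S.powerset) (t := Finset.univ) (f := f) (n := 2 ^ d) (fun _ _ => Finset.mem_univ _)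
    Finset.univ_nonempty (by
      rw [Finset.card_powerset]
      calc _ = 2 ^ (d + 2) := by simp; ring
        _ ≤ _ := Nat.pow_le_pow_right (by norm_num) hd)
  obtain ⟨J, hJ⟩ := Finset.card_pos.mp (lt_of_lt_of_le (by positivity) hy)
  refine ⟨(S.powerset.filter fun I => f I = y).image fun I => symmDiff I J, ?_, ?_⟩
  · rw [Finset.card_image_of_injective _ (symmDiff_left_injective J)]
    exact hy
  · intro T hT
    obtain ⟨I, hI, rfl⟩ := Finset.mem_image.mp hT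
    simp only [Finset.mem_filter, Finset.mem_powerset] at hI hJ
    have e : f I = f J := hI.2.trans hJ.2.symm
    simp only [f, Prod.mk.injEq, decide_eq_decide] at e
    refine ⟨?_, key p hp I hI.1 J hJ.1 e.1, key l hl I hI.1 J hJ.1 e.2⟩
    intro q hq
    rcases Finset.mem_symmDiff.mp hq with h | h
    · exact hI.1 h.1
    · exact hJ.1 h.1

theorem prod_mod_four (T : Finset ℕ) (h : ∀ q ∈ T, q % 4 = 1) : (∏ q ∈ T, q) % 4 = 1 := by
  induction T using Finset.induction_on with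
  | empty => simp
  | insert a T ha ih =>
    rw [Finset.prod_insert ha, Nat.mul_mod, h a (Finset.mem_insert_self _ _),
      ih fun q hq => h q (Finset.mem_insert_of_mem hq)]

/-- The real quadratic field attached to a set of primes that are `1` modulo `4`. -/
theorem exists_base_field (S : Finset ℕ) (hS : S.Nonempty) (hp : ∀ q ∈ S, q.Prime)
    (h4 : ∀ q ∈ S, q % 4 = 1) :
    ∃ (K : Type) (_ : Field K) (_ : NumberField K) (μ : 𝓞 K),
      Module.finrank ℚ K = 2 ∧ IsTotallyReal K ∧ (discr K).natAbs ∣ (∏ q ∈ S, q) ^ 2 ∧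
      μ ^ 2 = (∏ q ∈ S, q : ℕ) ∧
      (∀ (F : Type) [Field F] [CharZero F], IsSquare ((∏ q ∈ S, q : ℕ) : F) →
        Nonempty (K →+* F)) ∧
      ∀ I ⊆ S, I.Nonempty → I ≠ S → ¬ IsSquare ((∏ q ∈ I, q : ℕ) : K) := by
  set m : ℕ := ∏ q ∈ S, q with hm
  have hns : ¬ IsSquare (m : ℚ) := not_isSquare_prod_rat S hS hp
  obtain ⟨K, _, _, alg, β, hβ, hrk, hrep, hext⟩ := exists_sqrt_field ℚ (m : ℚ) hns
  have halg : alg = DivisionRing.toRatAlgebra := Subsingleton.elim _ _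
  subst halg
  have hm4 : m % 4 = 1 := prod_mod_four S h4
  obtain ⟨x, hx, hxd⟩ := exists_gen (m : ℚ) β hβ hrep 1 one_ne_zero 1 ((m / 4 : ℕ) : 𝓞 ℚ) (by
    have : m = 1 + 4 * (m / 4) := by omega
    have h := congrArg (fun n : ℕ => (n : ℚ)) this
    simp only [Nat.cast_add, Nat.cast_one, Nat.cast_mul, Nat.cast_ofNat] at h
    simpa using h)
  rw [map_one] at hx hxd
  rw [map_natCast] at hx
  have hμ : (2 * x - 1) ^ 2 = (m : 𝓞 K) := by
    have : m = 1 + 4 * (m / 4) := by omega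
    have h := congrArg (fun n : ℕ => (n : 𝓞 K)) this
    simp only [Nat.cast_add, Nat.cast_one, Nat.cast_mul, Nat.cast_ofNat] at h
    linear_combination 4 * hx - h
  refine ⟨K, inferInstance, inferInstance, 2 * x - 1, hrk,
    isTotallyReal_of_pos (m : ℚ) β hβ hrep (fun φ => by simp), ?_, hμ, ?_, ?_⟩
  · let _ : Algebra (FractionRing (𝓞 ℚ)) (FractionRing (𝓞 K)) := FractionRing.liftAlgebra _ _
    rw [natAbs_discr_eq_absNorm_differentIdeal_mul_natAbs_discr_pow ℚ (𝓞 ℚ) K (𝓞 K),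
      Rat.numberField_discr]
    simp only [Int.natAbs_one, one_pow, mul_one]
    have hmem : (m : 𝓞 K) ∈ differentIdeal (𝓞 ℚ) (𝓞 K) := by
      rw [← hμ, pow_two]
      exact Ideal.mul_mem_left _ _ (Ideal.mul_le_right hxd)
    have h1 := Ideal.absNorm_dvd_absNorm_of_le ((Ideal.span_singleton_le_iff_mem _).mpr hmem)
    rwa [Ideal.absNorm_span_natCast, RingOfIntegers.rank, hrk] at h1
  · rintro F _ _ ⟨r, hr⟩
    obtain ⟨ψ, -⟩ := hext F (algebraMap ℚ F) r (by rw [map_natCast, hr]; ring)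
    exact ⟨ψ⟩
  · rintro I hI hne hIS ⟨z, hz⟩
    obtain ⟨a, b, rfl⟩ := hrep z
    have hcast : ((∏ q ∈ I, q : ℕ) : K) = algebraMap ℚ K ((∏ q ∈ I, q : ℕ) : ℚ) :=
      (map_natCast _ _).symm
    set u : ℕ := ∏ q ∈ I, q with hu
    have e : algebraMap ℚ K (a ^ 2 + m * b ^ 2 - u) + algebraMap ℚ K (2 * a * b) * β = 0 := by
      simp only [map_add, map_sub, map_mul, map_pow, map_ofNat]
      rw [← hcast, hz, ← hβ]; ring
    have hab : 2 * a * b = 0 := by
      by_contra h0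
      apply hns
      refine ⟨(a ^ 2 + m * b ^ 2 - u) / (2 * a * b), (algebraMap ℚ K).injective ?_⟩
      have h0' : algebraMap ℚ K (2 * a * b) ≠ 0 := by simpa using h0
      have hb : β = - (algebraMap ℚ K (a ^ 2 + m * b ^ 2 - u) / algebraMap ℚ K (2 * a * b)) := by
        rw [← neg_div, eq_div_iff h0']
        linear_combination e
      rw [← hβ, map_mul, map_div₀, pow_two]
      nth_rewrite 1 [hb]
      nth_rewrite 1 [hb]
      ring
    rw [hab, map_zero, zero_mul, add_zero, map_eq_zero] at e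
    rcases mul_eq_zero.mp hab with h | h
    · have ha : a = 0 := by linarith
      have hsd : (S \ I).Nonempty := by
        rw [Finset.sdiff_nonempty]
        exact fun h => hIS (Finset.Subset.antisymm hI h)
      apply not_isSquare_prod_rat (S \ I) hsd fun q hq => hp q (Finset.mem_sdiff.mp hq).1
      have hmu : (∏ q ∈ S \ I, q) * u = m := Finset.prod_sdiff hI
      have hu0 : (u : ℚ) ≠ 0 := by
        rw [hu, Nat.cast_ne_zero]
        exact Finset.prod_ne_zero_iff.mpr fun q hq => (hp q (hI hq)).ne_zero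
      have hmu' := congrArg (fun n : ℕ => (n : ℚ)) hmu
      simp only [Nat.cast_mul] at hmu'
      set v : ℚ := ((∏ q ∈ S \ I, q : ℕ) : ℚ)
      have h1 : v * b ^ 2 = 1 := by
        apply mul_right_cancel₀ hu0
        rw [ha, ← hmu'] at e
        linear_combination e
      exact ⟨v * b, by linear_combination (-v) * h1⟩
    · apply not_isSquare_prod_rat I hne fun q hq => hp q (hI hq)
      refine ⟨a, ?_⟩
      rw [h] at e
      linear_combination -e

/-- The conditions of `step` for a divisor `u` of `m = μ ^ 2`. -/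
theorem base_h1 (L : Type) [Field L] [NumberField L] (μ : L) (u v : ℕ) (hu : u ≠ 0) (hv : v ≠ 0)
    (hμ : μ ^ 2 = (u * v : ℕ)) (huv : u.Coprime v) (P : Ideal (𝓞 L)) (hP : P.IsMaximal) :
    ∃ (c : L) (y : 𝓞 L), c ≠ 0 ∧ (y : L) = (u : L) * c ^ 2 ∧ y ∉ P := by
  by_cases h : (u : 𝓞 L) ∈ P
  · have hu' : (u : L) ≠ 0 := Nat.cast_ne_zero.mpr hu
    refine ⟨μ / u, v, div_ne_zero ?_ hu', ?_, fun h' => hP.ne_top ?_⟩
    · rintro rfl
      have : ((u * v : ℕ) : L) ≠ 0 := Nat.cast_ne_zero.mpr (mul_ne_zero hu hv)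
      exact this (by rw [← hμ]; simp)
    · rw [div_pow, hμ]
      change algebraMap (𝓞 L) L v = _
      rw [map_natCast]
      push_cast
      field_simp
    · obtain ⟨a, b, hab⟩ := Nat.Coprime.cast (R := 𝓞 L) huv
      rw [Ideal.eq_top_iff_one, ← hab]
      exact P.add_mem (P.mul_mem_left _ h) (P.mul_mem_left _ h')
  · exact ⟨1, u, one_ne_zero, by simp, h⟩

theorem base_h2 (L : Type) [Field L] [NumberField L] (u : ℕ) (hu : u % 4 = 1) :
    ∃ (c : L) (y : 𝓞 L), c ≠ 0 ∧ (u : L) * c ^ 2 = 1 + 4 * (y : L) := by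
  refine ⟨1, ((u / 4 : ℕ) : 𝓞 L), one_ne_zero, ?_⟩
  have : u = 1 + 4 * (u / 4) := by omega
  have h := congrArg (fun n : ℕ => (n : L)) this
  simp only [Nat.cast_add, Nat.cast_one, Nat.cast_mul, Nat.cast_ofNat] at h
  simpa using h

theorem base_hl (L : Type) [Field L] [NumberField L] (u l : ℕ) [hl : Fact l.Prime]
    (h0 : (u : ZMod l) ≠ 0) (hsq : IsSquare (u : ZMod l)) (Q : Ideal (𝓞 L)) (hQ : Q.IsMaximal)
    (hlQ : (l : 𝓞 L) ∈ Q) :
    ∃ (c : L) (y ρ : 𝓞 L), c ≠ 0 ∧ (y : L) = (u : L) * c ^ 2 ∧ y ∉ Q ∧ ρ ^ 2 - y ∈ Q := by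
  obtain ⟨r, hr⟩ := hsq
  refine ⟨1, u, (r.val : ℕ), one_ne_zero, by simp, fun h => hQ.ne_top ?_, ?_⟩
  · have hc : l.Coprime u := (Nat.Prime.coprime_iff_not_dvd hl.out).mpr fun h =>
      h0 ((ZMod.natCast_eq_zero_iff _ _).mpr h)
    obtain ⟨a, b, hab⟩ := Nat.Coprime.cast (R := 𝓞 L) hc
    rw [Ideal.eq_top_iff_one, ← hab]
    exact Q.add_mem (Q.mul_mem_left _ hlQ) (Q.mul_mem_left _ h)
  · have hd : (l : ℤ) ∣ (r.val : ℤ) ^ 2 - u := by
      rw [← ZMod.intCast_zmod_eq_zero_iff_dvd]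
      push_cast
      rw [ZMod.natCast_zmod_val, hr]; ring
    obtain ⟨k, hk⟩ := hd
    have h := congrArg (fun n : ℤ => (n : 𝓞 L)) hk
    simp only [Int.cast_sub, Int.cast_pow, Int.cast_natCast, Int.cast_mul] at h
    rw [h]
    exact Q.mul_mem_right _ hlQ

theorem exists_primes (n : ℕ) : ∃ T : Finset ℕ, T.card = n ∧ ∀ q ∈ T, q.Prime ∧ q % 4 = 1 := by
  have h := Nat.infinite_setOfPred_prime_and_modEq (q := 4) (a := 1) (by norm_num) (by norm_num)
  obtain ⟨T, hT, hc⟩ := h.exists_subset_card_eq n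
  exact ⟨T, hc, fun q hq => hT hq⟩

/-- The base field of the tower. -/
theorem base (d : ℕ) : ∃ C : ℕ, ∀ (p l : ℕ) [Fact p.Prime] [Fact l.Prime], C < p →
    ∃ (K : Type) (_ : Field K) (_ : NumberField K) (μ : 𝓞 K) (m : ℕ) (U : Finset ℕ),
      Module.finrank ℚ K = 2 ∧ IsTotallyReal K ∧ (discr K).natAbs ≤ C ∧ ¬ (2 : ℤ) ∣ discr K ∧
      μ ^ 2 = m ∧ ¬ IsSquare m ∧ m ≤ C ∧ Nonempty (K →+* ℚ_[p]) ∧ 2 ^ d ≤ U.card ∧
      (∀ u ∈ U, ∀ v ∈ U, u ≠ v → ¬ IsSquare ((u : K) * (v : K))) ∧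
      ∀ u ∈ U, u % 4 = 1 ∧ (∃ v, u * v = m ∧ u.Coprime v) ∧ IsSquare (u : ℚ_[p]) ∧
        (u : ZMod l) ≠ 0 ∧ IsSquare (u : ZMod l) := by
  classical
  obtain ⟨T, hT, hTp⟩ := exists_primes (2 * (d + 3))
  obtain ⟨A, hAT, hA⟩ := Finset.exists_subset_card_eq (s := T) (n := d + 3) (by omega)
  have hB : (T \ A).card = d + 3 := by rw [Finset.card_sdiff_of_subset hAT]; omega
  have hM : 0 < ∏ q ∈ T, q := Finset.prod_pos fun q hq => (hTp q hq).1.pos
  refine ⟨(∏ q ∈ T, q) ^ 2 + 2, fun p l hp hl hC => ?_⟩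
  have hle : ∀ S ⊆ T, ∏ q ∈ S, q ≤ ∏ q ∈ T, q := fun S hS =>
    Nat.le_of_dvd hM (Finset.prod_dvd_prod_of_subset _ _ _ hS)
  have hMC : ∏ q ∈ T, q ≤ (∏ q ∈ T, q) ^ 2 + 2 := by nlinarith
  have hnd : ∀ S ⊆ T, ¬ p ∣ ∏ q ∈ S, q := fun S hS h => by
    have := Nat.le_of_dvd (Finset.prod_pos fun q hq => (hTp q (hS hq)).1.pos) h
    have := hle S hS
    omega
  have hnz : ∀ S ⊆ T, ((∏ q ∈ S, q : ℕ) : ZMod p) ≠ 0 := fun S hS h =>
    hnd S hS ((ZMod.natCast_eq_zero_iff _ _).mp h)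
  have hp2 : p ≠ 2 := by omega
  obtain ⟨S, hST, hSc, hSq⟩ : ∃ S ⊆ T, d + 3 ≤ S.card ∧ IsSquare ((∏ q ∈ S, q : ℕ) : ZMod p) := by
    by_cases h1 : IsSquare ((∏ q ∈ A, q : ℕ) : ZMod p)
    · exact ⟨A, hAT, hA.ge, h1⟩
    by_cases h2 : IsSquare ((∏ q ∈ T \ A, q : ℕ) : ZMod p)
    · exact ⟨T \ A, Finset.sdiff_subset, hB.ge, h2⟩
    refine ⟨T, le_rfl, by omega, ?_⟩
    rw [← quadraticChar_one_iff_isSquare (hnz T le_rfl), ← Finset.prod_sdiff hAT, Nat.cast_mul,
      map_mul, quadraticChar_neg_one_iff_not_isSquare.mpr h1,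
      quadraticChar_neg_one_iff_not_isSquare.mpr h2]
    norm_num
  have hSne : S.Nonempty := Finset.card_pos.mp (by omega)
  have hSp : ∀ q ∈ S, q.Prime := fun q hq => (hTp q (hST hq)).1
  have hS4 : ∀ q ∈ S, q % 4 = 1 := fun q hq => (hTp q (hST hq)).2
  obtain ⟨q0, hq0, hq0l⟩ : ∃ q0 ∈ S, l ∉ S.erase q0 := by
    by_cases h : l ∈ S
    · exact ⟨l, h, Finset.notMem_erase _ _⟩
    · obtain ⟨q, hq⟩ := hSne
      exact ⟨q, hq, fun h' => h (Finset.mem_of_mem_erase h')⟩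
  have hlz : ∀ q ∈ S.erase q0, (q : ZMod l) ≠ 0 := fun q hq h => by
    rw [ZMod.natCast_eq_zero_iff,
      Nat.prime_dvd_prime_iff_eq hl.out (hSp q (Finset.mem_of_mem_erase hq))] at h
    exact hq0l (h ▸ hq)
  obtain ⟨F, hFc, hF⟩ := exists_family p l (S.erase q0) d
    (by rw [Finset.card_erase_of_mem hq0]; omega)
    (fun q hq => by
      simpa using hnz {q} (by simpa using hST (Finset.mem_of_mem_erase hq))) hlz
  obtain ⟨K, _, _, μ, hrk, hTR, hdisc, hμ, hemb, hns⟩ := exists_base_field S hSne hSp hS4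
  have hpair : ∀ I ∈ F, ∀ J ∈ F, I ≠ J →
      ¬ IsSquare (((∏ q ∈ I, q : ℕ) : K) * ((∏ q ∈ J, q : ℕ) : K)) := by
    rintro I hI J hJ hIJ ⟨z, hz⟩
    have hsub : symmDiff I J ⊆ S.erase q0 := by
      intro q hq
      rcases Finset.mem_symmDiff.mp hq with h | h
      · exact (hF I hI).1 h.1
      · exact (hF J hJ).1 h.1
    refine hns (symmDiff I J) (hsub.trans (Finset.erase_subset _ _))
      (Finset.symmDiff_nonempty.mpr hIJ) (fun h => ?_) ?_
    · exact Finset.notMem_erase q0 S (hsub (h ▸ hq0))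
    · have hw : ((∏ q ∈ I ∩ J, q : ℕ) : K) ≠ 0 := by
        rw [Nat.cast_ne_zero]
        exact Finset.prod_ne_zero_iff.mpr fun q hq => (hSp q (Finset.mem_of_mem_erase
          ((hF I hI).1 (Finset.mem_inter.mp hq).1))).ne_zero
      rw [← Nat.cast_mul, prod_symmDiff, Nat.cast_mul, Nat.cast_pow] at hz
      refine ⟨z / ((∏ q ∈ I ∩ J, q : ℕ) : K), ?_⟩
      rw [div_mul_div_comm, ← hz, ← pow_two, mul_div_assoc, div_self (pow_ne_zero _ hw), mul_one]
  have hm4 := prod_mod_four S hS4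
  refine ⟨K, inferInstance, inferInstance, μ, ∏ q ∈ S, q, F.image fun I => ∏ q ∈ I, q, hrk, hTR,
    ?_, ?_, hμ, not_isSquare_prod S hSne hSp, (hle S hST).trans hMC,
    hemb _ (isSquare_padic p hp2 _ (hnd S hST) hSq), ?_, ?_, ?_⟩
  · have h1 := Nat.le_of_dvd (pow_pos (Finset.prod_pos fun q hq => (hSp q hq).pos) 2) hdisc
    have h2 := Nat.pow_le_pow_left (hle S hST) 2
    omega
  · intro h
    have h1 : 2 ∣ (∏ q ∈ S, q) ^ 2 := (Int.natAbs_dvd_natAbs.mpr h).trans hdisc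
    have := Nat.prime_two.dvd_of_dvd_pow h1
    omega
  · rw [Finset.card_image_of_injOn]
    · exact hFc
    · intro I hI J hJ h
      by_contra hne
      refine hpair I hI J hJ hne ⟨((∏ q ∈ I, q : ℕ) : K), ?_⟩
      have h' : ∏ q ∈ I, q = ∏ q ∈ J, q := h
      rw [← h']
  · intro u hu v hv huv
    obtain ⟨I, hI, rfl⟩ := Finset.mem_image.mp hu
    obtain ⟨J, hJ, rfl⟩ := Finset.mem_image.mp hv
    exact hpair I hI J hJ fun h => huv (by rw [h])
  · intro u hu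
    obtain ⟨I, hI, rfl⟩ := Finset.mem_image.mp hu
    have hIS : I ⊆ S := (hF I hI).1.trans (Finset.erase_subset _ _)
    refine ⟨prod_mod_four I fun q hq => hS4 q (hIS hq), ⟨∏ q ∈ S \ I, q, ?_, ?_⟩,
      isSquare_padic p hp2 _ (hnd I (hIS.trans hST)) (hF I hI).2.1, ?_, (hF I hI).2.2⟩
    · rw [mul_comm, Finset.prod_sdiff hIS]
    · refine Nat.Coprime.prod_left fun i hi => Nat.Coprime.prod_right fun j hj => ?_
      rw [Nat.coprime_primes (hSp i (hIS hi)) (hSp j (Finset.mem_sdiff.mp hj).1)]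
      rintro rfl
      exact (Finset.mem_sdiff.mp hj).2 hi
    · rw [Nat.cast_prod]
      exact Finset.prod_ne_zero_iff.mpr fun q hq => hlz q ((hF I hI).1 hq)

end Tower66
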