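import Mathlib

open NumberField Polynomial

namespace Tower66

/-- Construction of `L(sqrt a)`. -/
theorem exists_sqrt_field (L : Type) [Field L] [NumberField L] (a : L) (hns : ¬ IsSquare a) :
    ∃ (M : Type) (_ : Field M) (_ : NumberField M) (_ : Algebra L M) (β : M),
      β ^ 2 = algebraMap L M a ∧ Module.finrank L M = 2 ∧
      (∀ z : M, ∃ u v : L, z = algebraMap L M u + algebraMap L M v * β) ∧
      (∀ (F : Type) [Field F] (φ : L →+* F) (r : F), r ^ 2 = φ a →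
        ∃ ψ : M →+* F, (∀ x, ψ (algebraMap L M x) = φ x) ∧ ψ β = r) := by
  have hirr : Irreducible (X ^ 2 - C a : L[X]) := by
    apply X_pow_sub_C_irreducible_of_prime Nat.prime_two
    intro b hb
    exact hns ⟨b, by rw [← hb]; ring⟩
  have : Fact (Irreducible (X ^ 2 - C a : L[X])) := ⟨hirr⟩
  have hmon : (X ^ 2 - C a : L[X]).Monic := monic_X_pow_sub_C a two_ne_zero
  have hdeg : (X ^ 2 - C a : L[X]).natDegree = 2 := natDegree_X_pow_sub_C
  let pb := AdjoinRoot.powerBasis hirr.ne_zero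
  have : Module.Finite L (AdjoinRoot (X ^ 2 - C a : L[X])) := pb.finite
  have : CharZero (AdjoinRoot (X ^ 2 - C a : L[X])) :=
    charZero_of_injective_algebraMap (algebraMap L _).injective
  have : NumberField (AdjoinRoot (X ^ 2 - C a : L[X])) := NumberField.of_module_finite L _
  have hroot : (AdjoinRoot.root (X ^ 2 - C a : L[X])) ^ 2 = algebraMap L _ a := by
    have := AdjoinRoot.eval₂_root (X ^ 2 - C a : L[X])
    rw [eval₂_sub, eval₂_X_pow, eval₂_C, sub_eq_zero] at this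
    exact this
  refine ⟨AdjoinRoot (X ^ 2 - C a : L[X]), inferInstance, inferInstance, inferInstance,
    AdjoinRoot.root _, hroot, ?_, ?_, ?_⟩
  · rw [pb.finrank, AdjoinRoot.powerBasis_dim, hdeg]
  · intro z
    induction z using AdjoinRoot.induction_on with
    | ih p =>
      induction p using Polynomial.induction_on' with
      | add p q hp hq =>
        obtain ⟨u, v, h⟩ := hp
        obtain ⟨u', v', h'⟩ := hq
        refine ⟨u + u', v + v', ?_⟩
        rw [map_add, h, h', map_add, map_add]; ring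
      | monomial n c =>
        have key : ∀ n : ℕ, ∃ u v : L, (AdjoinRoot.root (X ^ 2 - C a : L[X])) ^ n =
            algebraMap L _ u + algebraMap L _ v * AdjoinRoot.root (X ^ 2 - C a : L[X]) := by
          intro n
          induction n with
          | zero => exact ⟨1, 0, by simp⟩
          | succ n ih =>
            obtain ⟨u, v, h⟩ := ih
            refine ⟨v * a, u, ?_⟩
            rw [pow_succ _ n, h, map_mul, ← hroot]; ring
        obtain ⟨u, v, h⟩ := key n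
        refine ⟨c * u, c * v, ?_⟩
        rw [← C_mul_X_pow_eq_monomial, map_mul, map_pow, AdjoinRoot.mk_X, h, AdjoinRoot.mk_C,
          map_mul, map_mul]
        change algebraMap L _ c * _ = _
        ring
  · intro F _ φ r hr
    refine ⟨AdjoinRoot.lift φ r ?_, ?_, ?_⟩
    · rw [eval₂_sub, eval₂_X_pow, eval₂_C, hr, sub_self]
    · intro x
      exact AdjoinRoot.lift_of _
    · exact AdjoinRoot.lift_root _

section general

variable {L M : Type} [Field L] [Field M] [NumberField L] [NumberField M] [Algebra L M]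

/-- `L(sqrt a)` is Galois over `K` when the class of `a` modulo squares is invariant. -/
theorem isGalois_of_inv (K : Type) [Field K] [NumberField K] [Algebra K L] [Algebra K M]
    [IsScalarTower K L M] [IsGalois K L] (a : L) (β : M) (ha : a ≠ 0)
    (hβ : β ^ 2 = algebraMap L M a)
    (hrep : ∀ z : M, ∃ u v : L, z = algebraMap L M u + algebraMap L M v * β)
    (hext : ∀ (φ : L →+* M) (r : M), r ^ 2 = φ a →
        ∃ ψ : M →+* M, (∀ x, ψ (algebraMap L M x) = φ x) ∧ ψ β = r)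
    (hinv : ∀ g : L ≃ₐ[K] L, ∃ w : L, g a = a * w ^ 2) : IsGalois K M := by
  have hβ0 : β ≠ 0 := by
    rintro rfl
    apply ha
    apply (algebraMap L M).injective
    rw [← hβ]; simp
  have hlift : ∀ (g : L ≃ₐ[K] L) (r : M), r ^ 2 = algebraMap L M (g a) →
      ∃ ψ : M ≃ₐ[K] M, (∀ x, ψ (algebraMap L M x) = algebraMap L M (g x)) ∧ ψ β = r := by
    intro g r hr
    obtain ⟨ψ, h1, h2⟩ := hext ((algebraMap L M).comp (g : L →+* L)) r hr
    let ψ' : M →ₐ[K] M :=
      { ψ with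
        commutes' := by
          intro k
          have := h1 (algebraMap K L k)
          rw [← IsScalarTower.algebraMap_apply] at this
          simp only [RingHom.coe_comp, RingHom.coe_coe, Function.comp_apply,
            AlgEquiv.commutes] at this
          rw [← IsScalarTower.algebraMap_apply] at this
          exact this }
    refine ⟨AlgEquiv.ofBijective ψ' (Algebra.IsAlgebraic.algHom_bijective ψ'), ?_, ?_⟩
    · intro x; exact h1 x
    · exact h2
  apply IsGalois.of_fixedField_eq_bot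
  rw [eq_bot_iff]
  intro z hz
  rw [IntermediateField.mem_fixedField_iff] at hz
  obtain ⟨u, v, rfl⟩ := hrep z
  obtain ⟨τ, t1, t2⟩ := hlift 1 (-β) (by simpa using hβ)
  have h := hz τ (Subgroup.mem_top _)
  rw [map_add, map_mul, t1, t1, t2] at h
  simp only [AlgEquiv.one_apply] at h
  have hv : algebraMap L M v * β = 0 := by linear_combination (-1 / 2 : M) * h
  rw [hv, add_zero]
  have hu : u ∈ (⊥ : IntermediateField K L) := by
    rw [IsGalois.mem_bot_iff_fixed]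
    intro g
    obtain ⟨w, hw⟩ := hinv g
    obtain ⟨ψ, p1, p2⟩ := hlift g (algebraMap L M w * β) (by
      rw [hw, map_mul, map_pow, ← hβ]; ring)
    have h := hz ψ (Subgroup.mem_top _)
    rw [hv, add_zero, p1] at h
    exact (algebraMap L M).injective h
  obtain ⟨k, rfl⟩ := IntermediateField.mem_bot.mp hu
  rw [← IsScalarTower.algebraMap_apply]
  exact IntermediateField.algebraMap_mem _ _

omit [NumberField L] in
/-- A totally positive radicand gives a totally real extension. -/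
theorem isTotallyReal_of_pos [IsTotallyReal L] (a : L) (β : M)
    (hβ : β ^ 2 = algebraMap L M a)
    (hrep : ∀ z : M, ∃ u v : L, z = algebraMap L M u + algebraMap L M v * β)
    (hpos : ∀ φ : L →+* ℝ, 0 ≤ φ a) : IsTotallyReal M := by
  constructor
  intro w
  rw [InfinitePlace.isReal_iff, ComplexEmbedding.isReal_iff]
  set ψ := w.embedding
  have hr : ComplexEmbedding.IsReal (ψ.comp (algebraMap L M)) :=
    IsTotallyReal.complexEmbedding_isReal _
  have hco : ∀ x : L, ψ (algebraMap L M x) = (hr.embedding x : ℂ) := by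
    intro x
    rw [ComplexEmbedding.IsReal.coe_embedding_apply]; rfl
  have hb : (starRingEnd ℂ) (ψ β) = ψ β := by
    have h1 : (ψ β) ^ 2 = ((Real.sqrt (hr.embedding a) : ℝ) : ℂ) ^ 2 := by
      rw [← map_pow, hβ, hco, ← Complex.ofReal_pow, Real.sq_sqrt (hpos _)]
    rcases sq_eq_sq_iff_eq_or_eq_neg.mp h1 with h | h <;> rw [h] <;> simp
  ext z
  obtain ⟨u, v, rfl⟩ := hrep z
  rw [ComplexEmbedding.conjugate_coe_eq, map_add, map_mul, map_add, map_mul, hb, hco u, hco v,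
    Complex.conj_ofReal, Complex.conj_ofReal]

/-- The integral element `(s + c β) / 2`. -/
theorem exists_gen (a : L) (β : M) (hβ : β ^ 2 = algebraMap L M a)
    (hrep : ∀ z : M, ∃ u v : L, z = algebraMap L M u + algebraMap L M v * β)
    (c : L) (hc : c ≠ 0) (s t : 𝓞 L) (h : a * c ^ 2 = (s : L) ^ 2 + 4 * (t : L)) :
    ∃ x : 𝓞 M, x ^ 2 = algebraMap (𝓞 L) (𝓞 M) s * x + algebraMap (𝓞 L) (𝓞 M) t ∧
      2 * x - algebraMap (𝓞 L) (𝓞 M) s ∈
        conductor (𝓞 L) x * differentIdeal (𝓞 L) (𝓞 M) := by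
  set y : M := (algebraMap L M s + algebraMap L M c * β) / 2 with hy
  have h' : algebraMap L M a * algebraMap L M c ^ 2 =
      algebraMap L M s ^ 2 + 4 * algebraMap L M t := by
    have := congrArg (algebraMap L M) h
    simpa [map_ofNat] using this
  have hy2 : y ^ 2 = algebraMap L M s * y + algebraMap L M t := by
    rw [hy]
    linear_combination (algebraMap L M c ^ 2 / 4) * hβ + (1 / 4 : M) * h'
  let f : (𝓞 L)[X] := X ^ 2 - C s * X - C t
  have hf : f.Monic := by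
    simp only [f]
    monicity!
  have hint : IsIntegral (𝓞 L) y := by
    refine ⟨f, hf, ?_⟩
    simp only [f, eval₂_sub, eval₂_mul, eval₂_X_pow, eval₂_C, eval₂_X]
    rw [hy2, IsScalarTower.algebraMap_apply (𝓞 L) L M s, IsScalarTower.algebraMap_apply (𝓞 L) L M t]
    change _ - algebraMap L M s * y - algebraMap L M t = 0
    ring
  have hintZ : IsIntegral ℤ y := isIntegral_trans (A := 𝓞 L) y hint
  let x : 𝓞 M := ⟨y, hintZ⟩
  have hxy : algebraMap (𝓞 M) M x = y := rfl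
  have hco : ∀ r : 𝓞 L, algebraMap (𝓞 M) M (algebraMap (𝓞 L) (𝓞 M) r) = algebraMap L M r := by
    intro r
    rw [← IsScalarTower.algebraMap_apply, IsScalarTower.algebraMap_apply (𝓞 L) L M]
  have hx2 : x ^ 2 = algebraMap (𝓞 L) (𝓞 M) s * x + algebraMap (𝓞 L) (𝓞 M) t := by
    apply RingOfIntegers.coe_injective
    rw [map_add, map_mul, map_pow, hxy, hco, hco]
    exact hy2
  refine ⟨x, hx2, ?_⟩
  have hgen : Algebra.adjoin L {algebraMap (𝓞 M) M x} = ⊤ := by
    rw [eq_top_iff]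
    intro z _
    obtain ⟨u, v, rfl⟩ := hrep z
    have hb : β ∈ Algebra.adjoin L {algebraMap (𝓞 M) M x} := by
      have e : β = algebraMap L M (2 / c) * y - algebraMap L M (s / c) := by
        have : algebraMap L M c ≠ 0 := by simpa using hc
        rw [hy, map_div₀, map_div₀, map_ofNat]
        field_simp
        ring
      rw [e]
      refine sub_mem (mul_mem (Subalgebra.algebraMap_mem _ _) ?_) (Subalgebra.algebraMap_mem _ _)
      exact Algebra.subset_adjoin (by simp [hxy])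
    exact add_mem (Subalgebra.algebraMap_mem _ _) (mul_mem (Subalgebra.algebraMap_mem _ _) hb)
  rw [conductor_mul_differentIdeal (𝓞 L) L M x hgen]
  have hxint : IsIntegral (𝓞 L) x := Algebra.IsIntegral.isIntegral x
  have hroot : aeval x f = 0 := by
    simp only [f, map_sub, map_mul, map_pow, aeval_X, aeval_C]
    rw [hx2]; ring
  obtain ⟨q, hq⟩ := minpoly.isIntegrallyClosed_dvd hxint hroot
  have hd : aeval x (derivative f) = 2 * x - algebraMap (𝓞 L) (𝓞 M) s := by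
    simp only [f, derivative_sub, derivative_X_pow, derivative_mul, derivative_C, derivative_X]
    simp [map_ofNat]
  rw [← hd, hq, derivative_mul, map_add, map_mul, map_mul, minpoly.aeval, zero_mul, add_zero]
  exact Ideal.mul_mem_right _ _ (Ideal.mem_span_singleton_self _)

omit [NumberField L] [NumberField M] in
theorem disc_not_mem (x : 𝓞 M) (s t : 𝓞 L)
    (hx : x ^ 2 = algebraMap (𝓞 L) (𝓞 M) s * x + algebraMap (𝓞 L) (𝓞 M) t)
    (Q : Ideal (𝓞 M)) (h : s ^ 2 + 4 * t ∉ Q.under (𝓞 L)) :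
    2 * x - algebraMap (𝓞 L) (𝓞 M) s ∉ Q := by
  intro hm
  apply h
  rw [Ideal.under_def, Ideal.mem_comap]
  have e : algebraMap (𝓞 L) (𝓞 M) (s ^ 2 + 4 * t) =
      (2 * x - algebraMap (𝓞 L) (𝓞 M) s) * (2 * x - algebraMap (𝓞 L) (𝓞 M) s) := by
    rw [map_add, map_mul, map_pow, map_ofNat]
    linear_combination (-4) * hx
  rw [e]
  exact Ideal.mul_mem_left _ _ hm

/-- Local form of the unramifiedness criterion. -/
theorem different_eq_top (a : L) (β : M) (hβ : β ^ 2 = algebraMap L M a)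
    (hrep : ∀ z : M, ∃ u v : L, z = algebraMap L M u + algebraMap L M v * β)
    (hloc : ∀ P : Ideal (𝓞 L), P.IsMaximal → ∃ (c : L) (s t : 𝓞 L), c ≠ 0 ∧
      a * c ^ 2 = (s : L) ^ 2 + 4 * (t : L) ∧ s ^ 2 + 4 * t ∉ P) :
    differentIdeal (𝓞 L) (𝓞 M) = ⊤ := by
  by_contra hne
  obtain ⟨Q, hQ, hle⟩ := Ideal.exists_le_maximal _ hne
  obtain ⟨c, s, t, hc, h, hP⟩ := hloc (Q.under (𝓞 L)) (Ideal.IsMaximal.under (𝓞 L) Q)
  obtain ⟨x, hx, hm⟩ := exists_gen a β hβ hrep c hc s t h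
  exact disc_not_mem x s t hx Q hP (hle (Ideal.mul_le_right hm))

/-- The conditions (i) (even order at odd primes) and (ii) (square modulo 4). -/
theorem loc_of_conditions (a : L)
    (h1 : ∀ P : Ideal (𝓞 L), P.IsMaximal → (2 : 𝓞 L) ∉ P →
      ∃ (c : L) (y : 𝓞 L), c ≠ 0 ∧ (y : L) = a * c ^ 2 ∧ y ∉ P)
    (h2 : ∃ (c : L) (y : 𝓞 L), c ≠ 0 ∧ a * c ^ 2 = 1 + 4 * (y : L)) :
    ∀ P : Ideal (𝓞 L), P.IsMaximal → ∃ (c : L) (s t : 𝓞 L), c ≠ 0 ∧
      a * c ^ 2 = (s : L) ^ 2 + 4 * (t : L) ∧ s ^ 2 + 4 * t ∉ P := by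
  intro P hP
  by_cases h : (2 : 𝓞 L) ∈ P
  · obtain ⟨c, y, hc, e⟩ := h2
    refine ⟨c, 1, y, hc, by simpa using e, ?_⟩
    intro hm
    apply hP.ne_top
    rw [Ideal.eq_top_iff_one]
    have : (1 : 𝓞 L) = (1 ^ 2 + 4 * y) - 2 * (2 * y) := by ring
    rw [this]
    exact P.sub_mem hm (P.mul_mem_right _ h)
  · obtain ⟨c, y, hc, e, hy⟩ := h1 P hP h
    refine ⟨2 * c, 0, y, by simpa using hc, ?_, ?_⟩
    · rw [e]; simp; ring
    · intro hm
      have e2 : (0 : 𝓞 L) ^ 2 + 4 * y = 2 * (2 * y) := by ring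
      rw [e2] at hm
      rcases hP.isPrime.mem_or_mem hm with h' | h'
      · exact h h'
      · rcases hP.isPrime.mem_or_mem h' with h'' | h''
        · exact h h''
        · exact hy h''

/-- If `X^2 - sX - t` has a root modulo the prime below `Q`, the residue field does not grow. -/
theorem residue_surj (a : L) (β : M) (hβ : β ^ 2 = algebraMap L M a)
    (hrep : ∀ z : M, ∃ u v : L, z = algebraMap L M u + algebraMap L M v * β)
    (Q : Ideal (𝓞 M)) [hQ : Q.IsMaximal] (c : L) (s t ρ : 𝓞 L) (hc : c ≠ 0)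
    (h : a * c ^ 2 = (s : L) ^ 2 + 4 * (t : L)) (hP : s ^ 2 + 4 * t ∉ Q.under (𝓞 L))
    (hρ : ρ ^ 2 - s * ρ - t ∈ Q.under (𝓞 L)) (z : 𝓞 M) :
    ∃ r : 𝓞 L, z - algebraMap (𝓞 L) (𝓞 M) r ∈ Q := by
  obtain ⟨x, hx, hm⟩ := exists_gen a β hβ hrep c hc s t h
  have hn := disc_not_mem x s t hx Q hP
  have hcond := Ideal.mul_le_left hm
  let φ : 𝓞 M →ₐ[𝓞 L] 𝓞 M ⧸ Q := Ideal.Quotient.mkₐ (𝓞 L) Q
  have hxr : φ x ∈ (⊥ : Subalgebra (𝓞 L) (𝓞 M ⧸ Q)) := by
    rw [Ideal.under_def, Ideal.mem_comap] at hρ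
    have e : (x - algebraMap (𝓞 L) (𝓞 M) ρ) * (x - algebraMap (𝓞 L) (𝓞 M) (s - ρ)) =
        - algebraMap (𝓞 L) (𝓞 M) (ρ ^ 2 - s * ρ - t) := by
      simp only [map_sub, map_mul, map_pow]
      linear_combination hx
    have hmem : (x - algebraMap (𝓞 L) (𝓞 M) ρ) * (x - algebraMap (𝓞 L) (𝓞 M) (s - ρ)) ∈ Q := by
      rw [e]; exact Q.neg_mem hρ
    rw [Algebra.mem_bot]
    rcases hQ.isPrime.mem_or_mem hmem with h' | h'
    · exact ⟨ρ, (Ideal.Quotient.eq.mpr h').symm⟩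
    · exact ⟨s - ρ, (Ideal.Quotient.eq.mpr h').symm⟩
  have hadj : ∀ w ∈ Algebra.adjoin (𝓞 L) {x}, φ w ∈ (⊥ : Subalgebra (𝓞 L) (𝓞 M ⧸ Q)) := by
    intro w hw
    have : Algebra.adjoin (𝓞 L) {x} ≤ (⊥ : Subalgebra (𝓞 L) (𝓞 M ⧸ Q)).comap φ := by
      rw [Algebra.adjoin_le_iff]
      rintro _ rfl
      exact hxr
    exact this hw
  set δ := 2 * x - algebraMap (𝓞 L) (𝓞 M) s with hδ
  obtain ⟨r1, h1⟩ := Algebra.mem_bot.mp (hadj _ (mem_conductor_iff.mp hcond z))
  obtain ⟨r2, h2⟩ := Algebra.mem_bot.mp (hadj _ (mem_conductor_iff.mp hcond 1))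
  rw [mul_one] at h2
  have hr2 : r2 ∉ Q.under (𝓞 L) := by
    intro hm2
    apply hn
    rw [Ideal.under_def, Ideal.mem_comap] at hm2
    have : φ δ = 0 := by
      rw [← h2]
      exact Ideal.Quotient.eq_zero_iff_mem.mpr hm2
    exact Ideal.Quotient.eq_zero_iff_mem.mp this
  obtain ⟨y, i, hi, hyi⟩ := (Ideal.IsMaximal.under (𝓞 L) Q).exists_inv hr2
  refine ⟨y * r1, ?_⟩
  rw [← Ideal.Quotient.eq]
  change φ z = algebraMap (𝓞 L) (𝓞 M ⧸ Q) (y * r1)
  have hi0 : algebraMap (𝓞 L) (𝓞 M ⧸ Q) i = 0 := by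
    rw [Ideal.under_def, Ideal.mem_comap] at hi
    exact Ideal.Quotient.eq_zero_iff_mem.mpr hi
  have h3 := congrArg (algebraMap (𝓞 L) (𝓞 M ⧸ Q)) hyi
  rw [map_add, map_mul, hi0, add_zero, map_one, h2] at h3
  rw [map_mul, h1, map_mul, ← mul_assoc, h3, one_mul]

/-- Surjectivity on residue fields gives equal norms. -/
theorem absNorm_eq_of_surj (Q : Ideal (𝓞 M))
    (h : ∀ z : 𝓞 M, ∃ r : 𝓞 L, z - algebraMap (𝓞 L) (𝓞 M) r ∈ Q) :
    Ideal.absNorm Q = Ideal.absNorm (Q.under (𝓞 L)) := by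
  rw [Ideal.absNorm_apply, Ideal.absNorm_apply, Submodule.cardQuot_apply,
    Submodule.cardQuot_apply]
  symm
  refine Nat.card_eq_of_bijective
    (Ideal.quotientMap Q (algebraMap (𝓞 L) (𝓞 M)) le_rfl) ⟨Ideal.quotientMap_injective, ?_⟩
  intro z
  obtain ⟨z, rfl⟩ := Ideal.Quotient.mk_surjective z
  obtain ⟨r, hr⟩ := h z
  exact ⟨Ideal.Quotient.mk _ r, (Ideal.Quotient.eq.mpr hr).symm⟩

theorem different_trans (K : Type) [Field K] [NumberField K] [Algebra K L] [Algebra K M]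
    [IsScalarTower K L M] (h1 : differentIdeal (𝓞 K) (𝓞 L) = ⊤)
    (h2 : differentIdeal (𝓞 L) (𝓞 M) = ⊤) : differentIdeal (𝓞 K) (𝓞 M) = ⊤ := by
  let _ : Algebra (FractionRing (𝓞 K)) (FractionRing (𝓞 M)) := FractionRing.liftAlgebra _ _
  rw [differentIdeal_eq_differentIdeal_mul_differentIdeal (𝓞 K) (𝓞 L) (𝓞 M), h1, h2,
    Ideal.map_top, Ideal.top_mul]

theorem different_tower (K : Type) [Field K] [NumberField K] [Algebra K L] [Algebra K M]
    [IsScalarTower K L M] (h : differentIdeal (𝓞 K) (𝓞 M) = ⊤) :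
    differentIdeal (𝓞 K) (𝓞 L) = ⊤ ∧ differentIdeal (𝓞 L) (𝓞 M) = ⊤ := by
  let _ : Algebra (FractionRing (𝓞 K)) (FractionRing (𝓞 M)) := FractionRing.liftAlgebra _ _
  rw [differentIdeal_eq_differentIdeal_mul_differentIdeal (𝓞 K) (𝓞 L) (𝓞 M)] at h
  refine ⟨?_, eq_top_iff.mpr (h.ge.trans Ideal.mul_le_left)⟩
  have h2 : (differentIdeal (𝓞 K) (𝓞 L)).map (algebraMap (𝓞 L) (𝓞 M)) = ⊤ :=
    eq_top_iff.mpr (h.ge.trans Ideal.mul_le_right)
  by_contra hne
  obtain ⟨P, hP, hle⟩ := Ideal.exists_le_maximal _ hne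
  obtain ⟨Q, hQ, hQP⟩ := Ideal.exists_ideal_over_maximal_of_isIntegral (S := 𝓞 M) P
    (by rw [(RingHom.injective_iff_ker_eq_bot (algebraMap (𝓞 L) (𝓞 M))).mp
          (FaithfulSMul.algebraMap_injective _ _)]
        exact bot_le)
  apply hQ.ne_top
  rw [eq_top_iff, ← h2, Ideal.map_le_iff_le_comap, hQP]
  exact hle

theorem natAbs_discr_of_different (h : differentIdeal (𝓞 L) (𝓞 M) = ⊤) :
    (discr M).natAbs = (discr L).natAbs ^ Module.finrank L M := by
  let _ : Algebra (FractionRing (𝓞 L)) (FractionRing (𝓞 M)) := FractionRing.liftAlgebra _ _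
  rw [natAbs_discr_eq_absNorm_differentIdeal_mul_natAbs_discr_pow L (𝓞 L) M (𝓞 M), h,
    Ideal.absNorm_top, one_mul]

theorem isUnramifiedAt_of_different (h : differentIdeal (𝓞 L) (𝓞 M) = ⊤)
    (Q : Ideal (𝓞 M)) [hQ : Q.IsPrime] : Algebra.IsUnramifiedAt (𝓞 L) Q := by
  let _ : Algebra (FractionRing (𝓞 L)) (FractionRing (𝓞 M)) := FractionRing.liftAlgebra _ _
  rw [← not_dvd_differentIdeal_iff, h, Ideal.dvd_iff_le, top_le_iff]
  exact hQ.ne_top

theorem ramificationIdx_of_different (h : differentIdeal (𝓞 L) (𝓞 M) = ⊤)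
    (Q : Ideal (𝓞 M)) [hQ : Q.IsPrime] : Q.ramificationIdx (𝓞 L) = 1 := by
  have := isUnramifiedAt_of_different h Q
  exact Ideal.ramificationIdx_eq_one_of_isUnramifiedAt

theorem different_of_unramified
    (h : ∀ (Q : Ideal (𝓞 M)) [Q.IsPrime], Q ≠ ⊥ → Algebra.IsUnramifiedAt (𝓞 L) Q) :
    differentIdeal (𝓞 L) (𝓞 M) = ⊤ := by
  let _ : Algebra (FractionRing (𝓞 L)) (FractionRing (𝓞 M)) := FractionRing.liftAlgebra _ _
  by_contra hne
  obtain ⟨Q, hQ, hle⟩ := Ideal.exists_le_maximal _ hne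
  have hb : Q ≠ ⊥ := Ring.ne_bot_of_isMaximal_of_not_isField hQ (RingOfIntegers.not_isField M)
  exact (not_dvd_differentIdeal_iff.mpr (h Q hb)) (Ideal.dvd_iff_le.mpr hle)

end general

/-- The packaged step `L -> L(sqrt a)`. -/
theorem step (K L : Type) [Field K] [NumberField K] [Field L] [NumberField L] [Algebra K L]
    [IsGalois K L] [IsTotallyReal L] (a : L) (hns : ¬ IsSquare a)
    (hinv : ∀ g : L ≃ₐ[K] L, ∃ w : L, g a = a * w ^ 2)
    (h1 : ∀ P : Ideal (𝓞 L), P.IsMaximal → (2 : 𝓞 L) ∉ P →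
      ∃ (c : L) (y : 𝓞 L), c ≠ 0 ∧ (y : L) = a * c ^ 2 ∧ y ∉ P)
    (h2 : ∃ (c : L) (y : 𝓞 L), c ≠ 0 ∧ a * c ^ 2 = 1 + 4 * (y : L))
    (hpos : ∀ φ : L →+* ℝ, 0 ≤ φ a) :
    ∃ (M : Type) (_ : Field M) (_ : NumberField M) (_ : Algebra L M) (_ : Algebra K M)
      (_ : IsScalarTower K L M),
      Module.finrank L M = 2 ∧ IsGalois K M ∧ IsTotallyReal M ∧
      differentIdeal (𝓞 L) (𝓞 M) = ⊤ ∧
      (∃ β : M, β ^ 2 = algebraMap L M a) ∧
      (∀ (F : Type) [Field F] (φ : L →+* F), IsSquare (φ a) →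
        ∃ ψ : M →+* F, ∀ x, ψ (algebraMap L M x) = φ x) ∧
      (∀ Q : Ideal (𝓞 M), Q.IsMaximal → (2 : 𝓞 L) ∉ Q.under (𝓞 L) →
        (∃ (c : L) (y ρ : 𝓞 L), c ≠ 0 ∧ (y : L) = a * c ^ 2 ∧ y ∉ Q.under (𝓞 L) ∧
          ρ ^ 2 - y ∈ Q.under (𝓞 L)) →
        (∀ z : 𝓞 M, ∃ r : 𝓞 L, z - algebraMap (𝓞 L) (𝓞 M) r ∈ Q) ∧
          Ideal.absNorm Q = Ideal.absNorm (Q.under (𝓞 L))) := by
  obtain ⟨M, _, _, _, β, hβ, hrk, hrep, hext⟩ := exists_sqrt_field L a hns
  let _ : Algebra K M := ((algebraMap L M).comp (algebraMap K L)).toAlgebra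
  have : IsScalarTower K L M := IsScalarTower.of_algebraMap_eq fun _ => rfl
  have ha : a ≠ 0 := by
    rintro rfl
    exact hns ⟨0, by simp⟩
  refine ⟨M, inferInstance, inferInstance, inferInstance, inferInstance, inferInstance, hrk,
    isGalois_of_inv K a β ha hβ hrep (hext M) hinv, isTotallyReal_of_pos a β hβ hrep hpos,
    different_eq_top a β hβ hrep (loc_of_conditions a h1 h2), ⟨β, hβ⟩, ?_, ?_⟩
  · rintro F _ φ ⟨r, hr⟩
    obtain ⟨ψ, hψ, -⟩ := hext F φ r (by rw [hr]; ring)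
    exact ⟨ψ, hψ⟩
  · rintro Q hQ h2Q ⟨c, y, ρ, hc, e, hy, hρ⟩
    have hP := (Ideal.IsMaximal.under (𝓞 L) Q).isPrime
    have hs : ∀ z : 𝓞 M, ∃ r : 𝓞 L, z - algebraMap (𝓞 L) (𝓞 M) r ∈ Q := by
      refine residue_surj a β hβ hrep Q (2 * c) 0 y ρ (by simpa using hc) ?_ ?_ (by simpa using hρ)
      · rw [e]; simp; ring
      · intro hm
        have e2 : (0 : 𝓞 L) ^ 2 + 4 * y = 2 * (2 * y) := by ring
        rw [e2] at hm
        rcases hP.mem_or_mem hm with h' | h'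
        · exact h2Q h'
        · rcases hP.mem_or_mem h' with h'' | h''
          · exact h2Q h''
          · exact hy h''
    exact ⟨hs, absNorm_eq_of_surj Q hs⟩

end Tower66
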